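import Pool.Agent.Lib.MP_defcf3_al.BR.StageD
import Pool.Agent.Lib.MP_defcf3_al.BR.H38.Generic

/-!
Module CORN of project BR7 (MP_defcf3_al): basic properties of the corestriction from an open normal subgroup.
-/

set_option autoImplicit false

namespace BR7.H59

open BR7

universe u

section Basics

variable {G A : Type u} [Group G] [TopologicalSpace G] [IsTopologicalGroup G] [CommGroup A]
  [MulDistribMulAction G A] (N : Subgroup G)

/-- The groupoid character attached to a character of the subgroup. -/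
noncomputable def chi {n : ℕ} (ψ : G → ZMod n) : G → (G ⧸ N) → ZMod n :=
  fun g x => ψ ((Quotient.out (g • x))⁻¹ * g * Quotient.out x)

/-- The equivariant function attached to an element fixed by the subgroup. -/
noncomputable def uu (w : A) : (G ⧸ N) → A := fun x => (Quotient.out x) • w

theorem mk_out (x : G ⧸ N) : (QuotientGroup.mk (Quotient.out x) : G ⧸ N) = x :=
  Quotient.out_eq' x

theorem mem_m (g : G) (x : G ⧸ N) : (Quotient.out (g • x))⁻¹ * g * Quotient.out x ∈ N := by
  have h1 : (QuotientGroup.mk (Quotient.out (g • x)) : G ⧸ N) = QuotientGroup.mk (g * Quotient.out x) := by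
    rw [mk_out N (g • x)]
    conv_lhs => rw [← mk_out N x]
    rfl
  have h2 := QuotientGroup.eq.1 h1
  rwa [mul_assoc]

theorem smul_eq_of_mk {w : A} (hw : ∀ g ∈ N, g • w = w) {a b : G}
    (h : (QuotientGroup.mk a : G ⧸ N) = QuotientGroup.mk b) : a • w = b • w := by
  have h1 := QuotientGroup.eq.1 h
  have h2 := hw _ h1
  rw [mul_smul, inv_smul_eq_iff] at h2
  exact h2.symm

theorem eqv_uu {w : A} (hw : ∀ g ∈ N, g • w = w) : EqvF (G := G) (uu N w) := by
  intro g x
  unfold uu
  rw [← mul_smul]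
  refine smul_eq_of_mk N hw ?_
  rw [mk_out N (g • x)]
  conv_lhs => rw [← mk_out N x]
  rfl

theorem gchar_chi {n : ℕ} {ψ : G → ZMod n} (hψ : NChar N n ψ) : GChar n (chi N ψ) := by
  intro g h x
  unfold chi
  rw [← hψ.add _ (mem_m N g (h • x)) _ (mem_m N h x), mul_smul]
  congr 1
  group

theorem openStab (hN : IsOpen (N : Set G)) : OpenStab G (G ⧸ N) := by
  intro x
  have h1 : {g : G | g • x = x} = (fun g => (Quotient.out x)⁻¹ * g * Quotient.out x) ⁻¹' (N : Set G) := by
    ext g
    simp only [Set.mem_ofPred_eq, Set.mem_preimage, SetLike.mem_coe]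
    conv_lhs => rw [← mk_out N x]
    change (QuotientGroup.mk (g * Quotient.out x) : G ⧸ N) = QuotientGroup.mk (Quotient.out x) ↔ _
    rw [eq_comm, QuotientGroup.eq, mul_assoc]
  rw [h1]
  exact hN.preimage ((continuous_const.mul continuous_id).mul continuous_const)

theorem lc_chi {n : ℕ} {ψ : G → ZMod n} (hψ : NChar N n ψ) (x : G ⧸ N) :
    IsLocallyConstant (fun g => chi N ψ g x) := by
  have h1 : IsLocallyConstant (fun g : G => g • x) := H38.lc_smulX (openStab N hψ.isOpen) x
  have h2 : IsLocallyConstant (fun g : G => (Quotient.out (g • x))⁻¹) :=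
    h1.comp (fun y => (Quotient.out y)⁻¹)
  exact hψ.lc.comp_continuous ((h2.continuous.mul continuous_id).mul continuous_const)

theorem corN_eq [Fintype (G ⧸ N)] (n : ℕ) (w : A) (ψ : G → ZMod n) :
    corN N n w ψ = gcup n (uu N w) (chi N ψ) := rfl

end Basics

theorem psi_one {G : Type u} [Group G] [TopologicalSpace G] {N : Subgroup G} {n : ℕ} {ψ : G → ZMod n}
    (hψ : NChar N n ψ) : ψ 1 = 0 := by
  have h := hψ.add 1 N.one_mem 1 N.one_mem
  rw [mul_one] at h
  have h2 : ψ 1 + 0 = ψ 1 + ψ 1 := by rw [add_zero]; exact h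
  exact (add_left_cancel h2).symm

theorem psi_inv {G : Type u} [Group G] [TopologicalSpace G] {N : Subgroup G} {n : ℕ} {ψ : G → ZMod n}
    (hψ : NChar N n ψ) {g : G} (hg : g ∈ N) : ψ g⁻¹ = - ψ g := by
  have h := hψ.add g hg g⁻¹ (N.inv_mem hg)
  rw [mul_inv_cancel, psi_one hψ] at h
  exact (neg_eq_of_add_eq_zero_right h.symm).symm

theorem psi_conj {G : Type u} [Group G] [TopologicalSpace G] {N : Subgroup G} {n : ℕ} {ψ : G → ZMod n}
    (hψ : NChar N n ψ) {a g : G} (ha : a ∈ N) (hg : g ∈ N) : ψ (a * g * a⁻¹) = ψ g := by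
  rw [hψ.add _ (N.mul_mem ha hg) _ (N.inv_mem ha), hψ.add _ ha _ hg, psi_inv hψ ha]
  ring

theorem nchar_mul {G : Type u} [Group G] [TopologicalSpace G] {N : Subgroup G} {n : ℕ} {ψ : G → ZMod n}
    (hψ : NChar N n ψ) (r : ℕ) : NChar N n (fun g => (r : ZMod n) * ψ g) :=
  { normal := hψ.normal
    isOpen := hψ.isOpen
    add := fun g hg h hh => by rw [hψ.add g hg h hh, mul_add]
    lc := hψ.lc.comp (fun x => (r : ZMod n) * x) }

theorem nchar_conj {G : Type u} [Group G] [TopologicalSpace G] [IsTopologicalGroup G] {N : Subgroup G} {n : ℕ}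
    {ψ : G → ZMod n} (hψ : NChar N n ψ) (σ : G) : NChar N n (fun g => ψ (σ * g * σ⁻¹)) :=
  { normal := hψ.normal
    isOpen := hψ.isOpen
    add := fun g hg h hh => by
      have e : σ * (g * h) * σ⁻¹ = (σ * g * σ⁻¹) * (σ * h * σ⁻¹) := by group
      rw [e, hψ.add _ (hψ.normal.conj_mem g hg σ) _ (hψ.normal.conj_mem h hh σ)]
    lc := hψ.lc.comp_continuous ((continuous_const.mul continuous_id).mul continuous_const) }

theorem auxA {M : Type*} [CommGroup M] (a b c d : M) :
    a * (b * c)⁻¹ * (b * d⁻¹) = a * (d * c)⁻¹ := by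
  apply Additive.ofMul.injective
  simp only [ofMul_mul, ofMul_inv]
  abel

theorem auxB {M : Type*} [CommGroup M] (a b c : M) :
    a * (b * c)⁻¹ * c = a * b⁻¹ := by
  apply Additive.ofMul.injective
  simp only [ofMul_mul, ofMul_inv]
  abel

/-- Right translation of cosets of a normal subgroup. -/
def rho {G : Type u} [Group G] {N : Subgroup G} (hN : N.Normal) (σ : G) : (G ⧸ N) ≃ (G ⧸ N) where
  toFun := Quotient.map' (fun g => g * σ) (by
    intro a b h
    rw [QuotientGroup.leftRel_apply] at h ⊢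
    have e : (a * σ)⁻¹ * (b * σ) = σ⁻¹ * (a⁻¹ * b) * σ⁻¹⁻¹ := by group
    rw [e]
    exact hN.conj_mem _ h _)
  invFun := Quotient.map' (fun g => g * σ⁻¹) (by
    intro a b h
    rw [QuotientGroup.leftRel_apply] at h ⊢
    have e : (a * σ⁻¹)⁻¹ * (b * σ⁻¹) = σ * (a⁻¹ * b) * σ⁻¹ := by group
    rw [e]
    exact hN.conj_mem _ h _)
  left_inv := by
    intro x
    induction x using QuotientGroup.induction_on with
    | H z =>
      change (QuotientGroup.mk (z * σ * σ⁻¹) : G ⧸ N) = QuotientGroup.mk z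
      rw [mul_inv_cancel_right]
  right_inv := by
    intro x
    induction x using QuotientGroup.induction_on with
    | H z =>
      change (QuotientGroup.mk (z * σ⁻¹ * σ) : G ⧸ N) = QuotientGroup.mk z
      rw [inv_mul_cancel_right]

theorem rho_mk {G : Type u} [Group G] {N : Subgroup G} (hN : N.Normal) (σ g : G) :
    rho hN σ (QuotientGroup.mk g : G ⧸ N) = QuotientGroup.mk (g * σ) := rfl

theorem rho_smul {G : Type u} [Group G] {N : Subgroup G} (hN : N.Normal) (σ g : G) (x : G ⧸ N) :
    rho hN σ (g • x) = g • rho hN σ x := by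
  induction x using QuotientGroup.induction_on with
  | H z =>
    change (QuotientGroup.mk (g * z * σ) : G ⧸ N) = QuotientGroup.mk (g * (z * σ))
    rw [mul_assoc]

theorem rho_symm_smul {G : Type u} [Group G] {N : Subgroup G} (hN : N.Normal) (σ g : G) (x : G ⧸ N) :
    (rho hN σ).symm (g • x) = g • (rho hN σ).symm x := by
  rw [Equiv.symm_apply_eq, rho_smul, Equiv.apply_symm_apply]

/-- Module CORN. -/
theorem corn : CorNStatement.{u} := by
  intro G A _ _ _ _ _ hA N _ n _ ψ hψ
  have hO : OpenStab G (G ⧸ N) := openStab N hψ.isOpen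
  refine ⟨fun w hw => ⟨?_, ?_⟩, fun w w' => ?_, fun w r hw => ?_, fun w ψ' h => ?_, fun w σ hw => ?_⟩
  · exact H38.gz G A (G ⧸ N) hA hO n _ _ (eqv_uu N hw) (gchar_chi N hψ) (lc_chi N hψ)
  · exact H38.gtors G A (G ⧸ N) hA hO n _ _ (eqv_uu N hw) (gchar_chi N hψ) (lc_chi N hψ)
  · funext g h
    simp only [corN, gcup, Pi.mul_apply, smul_mul', mul_pow, Finset.prod_mul_distrib]
  · induction r with
    | zero =>
      have h0 : corN N n w (fun g => ((0 : ℕ) : ZMod n) * ψ g) = 1 := by
        funext g h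
        simp [corN, gcup, carry]
      rw [h0, pow_zero, inv_one, mul_one]
      exact (B2 G A).one_mem
    | succ r ih =>
      have h1 := H38.gadd G A (G ⧸ N) hA hO n (uu N w) (chi N (fun g => (r : ZMod n) * ψ g)) (chi N ψ)
        (eqv_uu N hw) (gchar_chi N (nchar_mul hψ r)) (gchar_chi N hψ) (lc_chi N (nchar_mul hψ r)) (lc_chi N hψ)
      have h2 : (fun g x => chi N (fun g => (r : ZMod n) * ψ g) g x + chi N ψ g x) =
          chi N (fun g => ((r + 1 : ℕ) : ZMod n) * ψ g) := by
        funext g x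
        simp only [chi]
        push_cast
        ring
      rw [h2, ← corN_eq, ← corN_eq, ← corN_eq] at h1
      have h3 := (B2 G A).mul_mem h1 ih
      have h4 : corN N n w (fun g => ((r + 1 : ℕ) : ZMod n) * ψ g) *
          (corN N n w (fun g => (r : ZMod n) * ψ g) * corN N n w ψ)⁻¹ *
          (corN N n w (fun g => (r : ZMod n) * ψ g) * (corN N n w ψ ^ r)⁻¹) =
          corN N n w (fun g => ((r + 1 : ℕ) : ZMod n) * ψ g) * (corN N n w ψ ^ (r + 1))⁻¹ := by
        rw [pow_succ]
        exact auxA _ _ _ _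
      rwa [h4] at h3
  · funext g h'
    simp only [corN, gcup]
    refine Finset.prod_congr rfl fun x _ => ?_
    rw [h _ (mem_m N g (h' • x)), h _ (mem_m N h' x)]
  · have hc := nchar_conj hψ σ
    -- the left hand side, reindexed
    have h1 : corN N n (σ • w) ψ = gcup n (uu N w) (fun g y => chi N ψ g ((rho hψ.normal σ).symm y)) := by
      funext g h
      simp only [corN, gcup]
      rw [← Equiv.prod_comp (rho hψ.normal σ) (fun y => uu N w ((g * h) • y) ^
        carry n (chi N ψ g ((rho hψ.normal σ).symm (h • y))) (chi N ψ h ((rho hψ.normal σ).symm y)))]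
      refine Finset.prod_congr rfl fun x _ => ?_
      have e1 : (Quotient.out ((g * h) • x)) • σ • w = uu N w ((g * h) • rho hψ.normal σ x) := by
        unfold uu
        rw [← mul_smul]
        refine smul_eq_of_mk N hw ?_
        rw [mk_out N ((g * h) • rho hψ.normal σ x), ← rho_smul, ← rho_mk hψ.normal, mk_out]
      have e2 : (rho hψ.normal σ).symm (h • rho hψ.normal σ x) = h • x := by
        rw [rho_symm_smul, Equiv.symm_apply_apply]
      rw [e1, e2, Equiv.symm_apply_apply]
      rfl
    have hg1 : GChar n (fun g y => chi N ψ g ((rho hψ.normal σ).symm y)) := by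
      intro g h y
      have e := gchar_chi N hψ g h ((rho hψ.normal σ).symm y)
      rw [← rho_symm_smul] at e
      exact e
    have ht : ∀ x : G ⧸ N, ∃ g : G, g • (QuotientGroup.mk σ : G ⧸ N) = x := by
      intro x
      induction x using QuotientGroup.induction_on with
      | H z =>
        refine ⟨z * σ⁻¹, ?_⟩
        change (QuotientGroup.mk (z * σ⁻¹ * σ) : G ⧸ N) = QuotientGroup.mk z
        rw [inv_mul_cancel_right]
    obtain ⟨ρ, hρ⟩ := H38.gchar G (G ⧸ N) n (fun g y => chi N ψ g ((rho hψ.normal σ).symm y))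
      (chi N (fun g => ψ (σ * g * σ⁻¹))) (QuotientGroup.mk σ) hg1 (gchar_chi N hc) ht (by
        intro g hg
        have hgN : g ∈ N := by
          have h2 : (QuotientGroup.mk (g * σ) : G ⧸ N) = QuotientGroup.mk σ := hg
          have h3 := QuotientGroup.eq.1 h2.symm
          have h4 := hψ.normal.conj_mem _ h3 σ
          have e : σ * (σ⁻¹ * (g * σ)) * σ⁻¹ = g := by group
          rwa [e] at h4
        have e0 : (rho hψ.normal σ).symm (QuotientGroup.mk σ : G ⧸ N) = QuotientGroup.mk 1 := by
          rw [Equiv.symm_apply_eq, rho_mk, one_mul]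
        have e1 : g • (QuotientGroup.mk 1 : G ⧸ N) = QuotientGroup.mk 1 := by
          change (QuotientGroup.mk (g * 1) : G ⧸ N) = QuotientGroup.mk 1
          rw [mul_one, eq_comm, QuotientGroup.eq, inv_one, one_mul]
          exact hgN
        simp only [chi]
        rw [hg, e0, e1]
        have h5 : Quotient.out (QuotientGroup.mk 1 : G ⧸ N) ∈ N := by
          have h6 := QuotientGroup.eq.1 (mk_out N (QuotientGroup.mk 1 : G ⧸ N))
          rw [mul_one] at h6
          simpa using N.inv_mem h6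
        have h7 : σ * (Quotient.out (QuotientGroup.mk σ : G ⧸ N))⁻¹ ∈ N := by
          have h8 := QuotientGroup.eq.1 (mk_out N (QuotientGroup.mk σ : G ⧸ N))
          have h9 := hψ.normal.conj_mem _ h8 σ
          have e : σ * ((Quotient.out (QuotientGroup.mk σ : G ⧸ N))⁻¹ * σ) * σ⁻¹ =
            σ * (Quotient.out (QuotientGroup.mk σ : G ⧸ N))⁻¹ := by group
          rwa [e] at h9
        generalize Quotient.out (QuotientGroup.mk 1 : G ⧸ N) = a at h5
        generalize Quotient.out (QuotientGroup.mk σ : G ⧸ N) = b at h7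
        have l1 : a⁻¹ * g * a = a⁻¹ * g * a⁻¹⁻¹ := by group
        have l2 : σ * (b⁻¹ * g * b) * σ⁻¹ = (σ * b⁻¹) * g * (σ * b⁻¹)⁻¹ := by group
        rw [l1, l2, psi_conj hψ (N.inv_mem h5) hgN, psi_conj hψ h7 hgN])
    have h2 : (fun g y => chi N ψ g ((rho hψ.normal σ).symm y)) =
        (fun g y => chi N (fun g => ψ (σ * g * σ⁻¹)) g y + (fun g y => ρ (g • y) - ρ y) g y) := by
      funext g y
      exact hρ g y
    have hgc : GChar (G := G) (X := G ⧸ N) n (fun g y => ρ (g • y) - ρ y) := by
      intro g h y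
      simp only [mul_smul]
      ring
    have hlc : ∀ y : G ⧸ N, IsLocallyConstant (fun g : G => ρ (g • y) - ρ y) := fun y =>
      (H38.lc_smulX hO y).comp (fun z => ρ z - ρ y)
    have h3 := H38.gadd G A (G ⧸ N) hA hO n (uu N w) (chi N (fun g => ψ (σ * g * σ⁻¹)))
      (fun g y => ρ (g • y) - ρ y) (eqv_uu N hw) (gchar_chi N hc) hgc (lc_chi N hc) hlc
    have h4 := H38.gcob G A (G ⧸ N) hA hO n (uu N w) ρ (eqv_uu N hw)
    have h5 := (B2 G A).mul_mem h3 h4
    rw [auxB] at h5
    rw [h1, h2]
    exact h5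

end BR7.H59
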